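import Mathlib
import Pool.Agent.Q278.CT.E2g

/-!
# Uniform multipliers for double-sum congruences of `S_n^{(r)}`

For every `r ≥ 1` there are nonzero integers `a, b` with `n² ∣ a A_r(n)` and `n² ∣ b B_r(n)` for all
`n ≥ 1`, where `A_r(n) = ∑_{k<n} S_k^{(2r-1)}` and `B_r(n) = ∑_{k<n} k S_k^{(r)}`.

Proof. Let `t(k,j) = C(k,j)² C(2j,j)`. For a weight `P(k,j)` consider `∑_{k<n} ∑_j t(k,j) P(k,j)`,
and call `P` nice if its quotients by `n²` have bounded denominators. Telescoping in `k` shows that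
`(k+1)² R(k+1,j) - (k-j)² R(k,j)` is nice when `C(2j,j) R` has bounded denominators (e.g.
`R = polynomial / (j+1)`), telescoping in `j` that `2(2j+1)(k-j)²/(j+1) Q(j+1) - j² Q(j)` is nice,
and the symmetry of the trinomial coefficients that `3j - 2k` is nice. These give that `2j+1`,
`4k+3` and `(2j+1)((j+1)^{m+2} - j^{m+2})` are nice, so all `(2j+1) j^m` are nice, and then all
`k (2j+1)^r`, `r ≥ 1`.
-/

set_option autoImplicit false

namespace Pool.Agent.Results.MP_e2f147_nt.Multipliers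

open Finset

/-- `S_n^{(r)} = ∑_{k=0}^n C(n,k)² C(2k,k) (2k+1)^r`. -/
def S (n r : ℕ) : ℤ :=
  ∑ k ∈ range (n + 1), (Nat.choose n k : ℤ) ^ 2 * (Nat.choose (2 * k) k : ℤ) * (2 * (k : ℤ) + 1) ^ r

/-- `A_r(n) = ∑_{k=0}^{n-1} S_k^{(2r-1)}`. -/
def A (r n : ℕ) : ℤ := ∑ k ∈ range n, S k (2 * r - 1)

/-- `B_r(n) = ∑_{k=0}^{n-1} k S_k^{(r)}`. -/
def B (r n : ℕ) : ℤ := ∑ k ∈ range n, (k : ℤ) * S k r

/-- **Main result.** For every positive integer `r` there are nonzero integers `a`, `b`, not depending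
on `n`, with `n² ∣ a A_r(n)` and `n² ∣ b B_r(n)` for all positive integers `n`. -/
theorem result : ∀ r : ℕ, 1 ≤ r →
    (∃ a : ℤ, a ≠ 0 ∧ ∀ n : ℕ, 1 ≤ n → (n : ℤ) ^ 2 ∣ a * A r n) ∧
    (∃ b : ℤ, b ≠ 0 ∧ ∀ n : ℕ, 1 ≤ n → (n : ℤ) ^ 2 ∣ b * B r n) := by
  intro r hr
  obtain ⟨s, hs⟩ : ∃ s, 2 * r - 1 = s + 1 := ⟨2 * r - 2, by omega⟩
  obtain ⟨q, hq⟩ : ∃ q, r = q + 1 := ⟨r - 1, by omega⟩
  refine ⟨?_, ?_⟩
  · obtain ⟨a, ha, h⟩ := Pool.Agent.Q278.CT.G.nice_XX s 0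
    refine ⟨a, ha, fun n _ => ?_⟩
    obtain ⟨u, hu⟩ := h n
    refine ⟨u, ?_⟩
    have hA : (A r n : ℚ) = Pool.Agent.Q278.CT.G.SS (fun _ j => (2 * (j : ℚ) + 1) ^ (s + 1) * (j : ℚ) ^ 0) n := by
      unfold A S Pool.Agent.Q278.CT.G.SS Pool.Agent.Q278.CT.G.t
      rw [hs]
      push_cast
      refine sum_congr rfl fun k _ => sum_congr rfl fun j _ => ?_
      ring
    have h2 : ((a * A r n : ℤ) : ℚ) = (((n : ℤ) ^ 2 * u : ℤ) : ℚ) := by
      push_cast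
      rw [hA]
      exact hu
    exact_mod_cast h2
  · obtain ⟨a, ha, h⟩ := Pool.Agent.Q278.CT.G.nice_kX q
    refine ⟨a, ha, fun n _ => ?_⟩
    obtain ⟨u, hu⟩ := h n
    refine ⟨u, ?_⟩
    have hB : (B r n : ℚ) = Pool.Agent.Q278.CT.G.SS (fun k j => (k : ℚ) * (2 * (j : ℚ) + 1) ^ (q + 1)) n := by
      unfold B S Pool.Agent.Q278.CT.G.SS Pool.Agent.Q278.CT.G.t
      rw [hq]
      push_cast
      refine sum_congr rfl fun k _ => ?_
      rw [mul_sum]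
      refine sum_congr rfl fun j _ => ?_
      ring
    have h2 : ((a * B r n : ℤ) : ℚ) = (((n : ℤ) ^ 2 * u : ℤ) : ℚ) := by
      push_cast
      rw [hB]
      exact hu
    exact_mod_cast h2

end Pool.Agent.Results.MP_e2f147_nt.Multipliers
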